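import Pool.Agent.MP_8d06cc_nt.DA.Defs

/-! First properties of Pell data. -/

namespace Pool.Agent.MP_8d06cc_nt.DA

open Polynomial

noncomputable section

theorem idI {R : Type} [CommRing R] (D : Derivation ℤ R[X] R[X]) (f A B : R[X]) :
    B * WW D f A B = 2 * D A * (A ^ 2 - f * B ^ 2) - A * D (A ^ 2 - f * B ^ 2) := by
  simp only [WW, map_sub, Derivation.leibniz, pow_two, smul_eq_mul]
  ring

theorem idII {R : Type} [CommRing R] (D : Derivation ℤ R[X] R[X]) (f A B : R[X]) :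
    A * WW D f A B =
      (2 * f * D B + D f * B) * (A ^ 2 - f * B ^ 2) - f * B * D (A ^ 2 - f * B ^ 2) := by
  simp only [WW, map_sub, Derivation.leibniz, pow_two, smul_eq_mul]
  ring

/-- the usual derivative as a derivation over the integers -/
def dX (R : Type) [CommRing R] : Derivation ℤ R[X] R[X] := derivative'.restrictScalars ℤ

theorem dX_apply {R : Type} [CommRing R] (g : R[X]) : dX R g = derivative g := rfl

theorem coe_dX {R : Type} [CommRing R] : (dX R : R[X] → R[X]) = derivative := rfl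

variable {k : Type} [Field k]

theorem B_ne {f A B : k[X]} {N : ℕ} {a c : k} (hN : 0 < N)
    (he : A ^ 2 - f * B ^ 2 = C c * (X - C a) ^ (2 * N)) (hA : A.eval a ≠ 0) :
    B.eval a ≠ 0 ∧ A.eval a ^ 2 = f.eval a * B.eval a ^ 2 := by
  have h := congrArg (eval a) he
  simp only [eval_sub, eval_pow, eval_mul, eval_C, eval_X, sub_self] at h
  rw [zero_pow (by omega), mul_zero, sub_eq_zero] at h
  refine ⟨fun h0 => hA ?_, h⟩
  rw [h0] at h
  simpa using h

theorem exR [CharZero k] (D : Derivation ℤ k[X] k[X]) {f A B : k[X]} {N : ℕ} {a b c c' ε : k}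
    (hN : 0 < N) (he : A ^ 2 - f * B ^ 2 = C c * (X - C a) ^ (2 * N)) (hc : c ≠ 0)
    (hA : A.eval a ≠ 0) (hb : A.eval a + B.eval a * b = 0) (h1 : D (C c) = C c')
    (h2 : D (X - C a) = C ε) :
    ∃ R, WW D f A B = C (2 * N * c) * (X - C a) ^ (2 * N - 1) * R ∧ R.eval a = ε * b := by
  have hB := (B_ne hN he hA).1
  obtain ⟨n, hn⟩ : ∃ n, 2 * N = n + 1 := ⟨2 * N - 1, by omega⟩
  have hn' : 2 * N - 1 = n := by omega
  have hc2 : (2 * N * c : k) ≠ 0 :=
    mul_ne_zero (mul_ne_zero two_ne_zero (Nat.cast_ne_zero.2 hN.ne')) hc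
  have hcast : ((n : k[X]) + 1) * C c = C (2 * N * c) := by
    have : (2 * N : k) = n + 1 := by exact_mod_cast hn
    rw [this]
    simp
  have h := idI D f A B
  rw [he, hn, Derivation.leibniz, Derivation.leibniz_pow, h1, h2] at h
  simp only [smul_eq_mul, nsmul_eq_mul, Nat.add_sub_cancel, Nat.cast_add, Nat.cast_one] at h
  have h3 : B * WW D f A B = (X - C a) ^ n *
      ((2 * D A * C c - A * C c') * (X - C a) - A * C (2 * N * c) * C ε) := by
    rw [h, ← hcast]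
    ring
  have hcop : IsCoprime ((X - C a) ^ n) B := by
    apply IsCoprime.pow_left
    rw [(irreducible_X_sub_C a).coprime_iff_not_dvd, dvd_iff_isRoot]
    exact hB
  obtain ⟨R₀, hR⟩ := hcop.dvd_of_dvd_mul_left ⟨_, h3⟩
  refine ⟨C (2 * N * c)⁻¹ * R₀, ?_, ?_⟩
  · have : C (2 * N * c) * C (2 * N * c)⁻¹ = (1 : k[X]) := by
      rw [← C_mul, mul_inv_cancel₀ hc2, C_1]
    rw [hn', hR]
    linear_combination (-((X - C a) ^ n * R₀)) * this
  · rw [hR, mul_left_comm] at h3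
    have h4 := congrArg (eval a) (mul_left_cancel₀ (pow_ne_zero n (X_sub_C_ne_zero a)) h3)
    simp only [eval_sub, eval_mul, eval_C, eval_X, sub_self, mul_zero] at h4
    rw [eval_mul, eval_C]
    apply mul_left_cancel₀ (mul_ne_zero hc2 hB)
    have hi := mul_inv_cancel₀ hc2
    generalize (2 * N * c : k)⁻¹ = w at hi ⊢
    linear_combination (B.eval a * R₀.eval a) * hi + h4 - 2 * N * c * ε * hb

theorem deg_of {N n : ℕ} {a c : k} {W R : k[X]} (hN : 0 < N) (hc : c ≠ 0)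
    (h : W = C c * (X - C a) ^ (2 * N - 1) * R) (hW : W.natDegree ≤ 2 * N - 1 + n) :
    R.natDegree ≤ n := by
  by_cases hR : R = 0
  · simp [hR]
  rw [h, natDegree_mul (mul_ne_zero (C_ne_zero.2 hc) (pow_ne_zero _ (X_sub_C_ne_zero a))) hR,
    natDegree_C_mul hc, natDegree_pow, natDegree_X_sub_C] at hW
  omega

theorem eul_deg (g : k[X]) : (X * derivative g).natDegree ≤ g.natDegree := by
  rw [natDegree_le_iff_coeff_eq_zero]
  intro n hn
  obtain ⟨m, rfl⟩ : ∃ m, n = m + 1 := ⟨n - 1, by omega⟩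
  rw [coeff_X_mul, coeff_derivative, coeff_eq_zero_of_natDegree_lt hn, zero_mul]

theorem eul_coeff (g : k[X]) (n : ℕ) : (X * derivative g).coeff n = g.coeff n * n := by
  cases n with
  | zero => simp
  | succ m => rw [coeff_X_mul, coeff_derivative]; simp

theorem deg3 {f A B : k[X]} {M : ℕ} (hf : f.natDegree ≤ 8) (hA : A.natDegree ≤ M + 4)
    (hB : B.natDegree ≤ M) : (f * (A * B)).natDegree ≤ 8 + (M + 4 + M) ∧
      (f * (A * B)).coeff (8 + (M + 4 + M)) = f.coeff 8 * (A.coeff (M + 4) * B.coeff M) := by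
  have h1 : (A * B).natDegree ≤ M + 4 + M := natDegree_mul_le.trans (add_le_add hA hB)
  exact ⟨natDegree_mul_le.trans (add_le_add hf h1), by
    rw [coeff_mul_add_eq_of_natDegree_le hf h1, coeff_mul_add_eq_of_natDegree_le hA hB]⟩

theorem degW_le {D : k[X] → k[X]} (hD : ∀ g, (D g).natDegree ≤ g.natDegree) {f A B : k[X]} {M : ℕ}
    (hf : f.natDegree ≤ 8) (hA : A.natDegree ≤ M + 4) (hB : B.natDegree ≤ M) :
    (WW D f A B).natDegree ≤ 8 + (M + 4 + M) ∧ (WW D f A B).coeff (8 + (M + 4 + M)) =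
      2 * (f.coeff 8 * (A.coeff (M + 4) * (D B).coeff M)) -
      2 * (f.coeff 8 * ((D A).coeff (M + 4) * B.coeff M)) +
      (D f).coeff 8 * (A.coeff (M + 4) * B.coeff M) := by
  obtain ⟨a1, a2⟩ := deg3 hf hA ((hD B).trans hB)
  obtain ⟨b1, b2⟩ := deg3 hf ((hD A).trans hA) hB
  obtain ⟨c1, c2⟩ := deg3 ((hD f).trans hf) hA hB
  have e : WW D f A B = f * (A * D B) + f * (A * D B) - f * (D A * B) - f * (D A * B) +
      D f * (A * B) := by
    unfold WW
    ring
  rw [e]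
  constructor
  · rw [natDegree_le_iff_coeff_eq_zero] at a1 b1 c1 ⊢
    intro n hn
    simp only [coeff_add, coeff_sub, a1 n hn, b1 n hn, c1 n hn]
    simp
  · simp only [coeff_add, coeff_sub, a2, b2, c2]
    ring

theorem degW {f A B : k[X]} {M : ℕ} (hf : f.natDegree ≤ 8) (hA : A.natDegree ≤ M + 4)
    (hB : B.natDegree ≤ M) : (WW derivative f A B).natDegree ≤ 2 * M + 10 := by
  obtain ⟨h1, h2⟩ := degW_le (D := fun g => X * derivative g) eul_deg hf hA hB
  have e : WW (fun g => X * derivative g) f A B = X * WW derivative f A B := by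
    unfold WW
    ring
  rw [e] at h1 h2
  simp only [eul_coeff] at h2
  rw [natDegree_le_iff_coeff_eq_zero] at h1 ⊢
  intro n hn
  rw [← coeff_X_mul]
  rcases Nat.lt_or_ge (8 + (M + 4 + M)) (n + 1) with h | h
  · exact h1 _ h
  · have : n + 1 = 8 + (M + 4 + M) := by omega
    rw [this, h2]
    push_cast
    ring

theorem PD.OK.c2 [CharZero k] {f : k[X]} {N : ℕ} {P : PD k} (h : P.OK f N) :
    (2 * N * P.c : k) ≠ 0 :=
  mul_ne_zero (mul_ne_zero two_ne_zero (Nat.cast_ne_zero.2 h.pos.ne')) h.hc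

theorem PD.OK.hB {f : k[X]} {N : ℕ} {P : PD k} (h : P.OK f N) : P.B.eval P.a ≠ 0 :=
  (B_ne h.pos h.eqn h.hA).1

theorem PD.OK.bsq {f : k[X]} {N : ℕ} {P : PD k} (h : P.OK f N) : P.b ^ 2 = f.eval P.a := by
  obtain ⟨h1, h2⟩ := B_ne h.pos h.eqn h.hA
  apply mul_left_cancel₀ (pow_ne_zero 2 h1)
  linear_combination h2 + (P.B.eval P.a * P.b - P.A.eval P.a) * h.hb

theorem PD.OK.b_ne {f : k[X]} {N : ℕ} {P : PD k} (h : P.OK f N) : P.b ≠ 0 := fun h0 =>
  h.hf (by rw [← h.bsq, h0]; simp)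

theorem PD.OK.Qa [CharZero k] {f : k[X]} {N : ℕ} {P : PD k} (h : P.OK f N) :
    P.Q.eval P.a = P.b := by
  obtain ⟨R, h1, h2⟩ := exR (dX k) (c' := 0) (ε := 1) h.pos h.eqn h.hc h.hA h.hb
    (by simp [dX_apply]) (by simp [dX_apply])
  rw [coe_dX, h.hQ] at h1
  rw [mul_left_cancel₀ (mul_ne_zero (C_ne_zero.2 h.c2) (pow_ne_zero _ (X_sub_C_ne_zero _))) h1,
    h2, one_mul]

theorem PD.OK.degQ [CharZero k] {f : k[X]} {N : ℕ} {P : PD k} (hf : f.natDegree ≤ 8)
    (h : P.OK f N) : P.Q.natDegree ≤ 3 := by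
  have h1 := h.dA
  have h2 := h.dB
  obtain ⟨M, rfl⟩ : ∃ M, N = M + 4 := ⟨N - 4, by omega⟩
  refine deg_of h.pos h.c2 h.hQ ((degW hf h1 (by omega)).trans (by omega))

theorem PD.OK.norm_at {f : k[X]} {N : ℕ} {P P' : PD k} (h : P.OK f N) (h' : P'.OK f N) :
    (P.A.eval P'.a + P.B.eval P'.a * P'.b) * (P.A.eval P'.a - P.B.eval P'.a * P'.b) =
      P.c * (P'.a - P.a) ^ (2 * N) := by
  have e := congrArg (eval P'.a) h.eqn
  simp only [eval_sub, eval_pow, eval_mul, eval_C, eval_X] at e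
  rw [← e, ← h'.bsq]
  ring

theorem PD.OK.gam_ne {f : k[X]} {N : ℕ} {P P' : PD k} (h : P.OK f N) (h' : P'.OK f N)
    (ha : P.a ≠ P'.a) : P.A.eval P'.a + P.B.eval P'.a * P'.b ≠ 0 ∧
      P.A.eval P'.a - P.B.eval P'.a * P'.b ≠ 0 := by
  rw [← mul_ne_zero_iff, h.norm_at h']
  exact mul_ne_zero h.hc (pow_ne_zero _ (sub_ne_zero.2 ha.symm))

theorem pellS : S_PELL where
  ex := by
    intro k _ _ f A B N a c hN dA dB he hc hA hf
    have hB := (B_ne hN he hA).1
    have hb : A.eval a + B.eval a * (-A.eval a / B.eval a) = 0 := by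
      field_simp
      ring
    obtain ⟨R, h1, _⟩ := exR (dX k) (c' := 0) (ε := 1) hN he hc hA hb
      (by simp [dX_apply]) (by simp [dX_apply])
    exact ⟨_, R, hN, dA, dB, he, hc, hA, hf, hb, h1⟩
  basic := fun _ _ _ _ _ _ hf h => ⟨h.hB, h.b_ne, h.bsq, h.Qa, h.degQ hf⟩
  gam_ne := fun _ _ _ _ _ _ _ h h' ha => h.gam_ne h' ha

end

end Pool.Agent.MP_8d06cc_nt.DA
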