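import Pool.Agent.MP_8d06cc_nt.DA.Defs

/-! Three Pell functions generate the rational function field. -/

namespace Pool.Agent.MP_8d06cc_nt.DA

open Polynomial

noncomputable section

section val

variable {K Ω Γ : Type} [Field K] [Field Ω] [Algebra K Ω] [LinearOrderedCommGroupWithZero Γ]
  (v : Valuation Ω Γ)

theorem v_const (hv : ∀ c : K, v (algebraMap K Ω c) ≤ 1) {c : K} (hc : c ≠ 0) :
    v (algebraMap K Ω c) = 1 := by
  refine le_antisymm (hv c) ?_
  have h := hv c⁻¹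
  have h0 : v (algebraMap K Ω c) ≠ 0 := by simpa using hc
  rw [map_inv₀, map_inv₀, inv_le_one₀ (zero_lt_iff.2 h0)] at h
  exact h

theorem v_aeval_le (hv : ∀ c : K, v (algebraMap K Ω c) ≤ 1) (G : K[X]) {N : ℕ}
    (hG : G.natDegree ≤ N) (s : Ω) : v (aeval s G) ≤ max 1 (v s) ^ N := by
  rw [aeval_eq_sum_range' (Nat.lt_succ_of_le hG)]
  refine v.map_sum_le fun i hi => ?_
  rw [Algebra.smul_def, map_mul, map_pow]
  have h1 : v s ^ i ≤ max 1 (v s) ^ i := pow_le_pow_left₀ zero_le (le_max_right _ _) i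
  have h2 : max 1 (v s) ^ i ≤ max 1 (v s) ^ N :=
    pow_le_pow_right₀ (le_max_left _ _) (Nat.lt_succ_iff.1 (Finset.mem_range.1 hi))
  exact (mul_le_of_le_one_left zero_le (hv _)).trans (h1.trans h2)

theorem v_aeval_eq (hv : ∀ c : K, v (algebraMap K Ω c) ≤ 1) (G : K[X]) (hG : G.coeff 0 ≠ 0)
    {s : Ω} (hs : v s < 1) : v (aeval s G) = 1 := by
  have e : aeval s G = algebraMap K Ω (G.coeff 0) + aeval s G.divX * s := by
    conv_lhs => rw [← divX_mul_X_add G]
    simp [add_comm]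
  have h1 := v_aeval_le v hv G.divX le_rfl s
  rw [max_eq_left hs.le, one_pow] at h1
  have h2 : v (aeval s G.divX * s) < 1 := by
    rw [map_mul]
    exact (mul_le_of_le_one_left zero_le h1).trans_lt hs
  rw [e, v.map_add_eq_of_lt_left (by rwa [v_const v hv hG]), v_const v hv hG]

theorem v_min (hv : ∀ c : K, v (algebraMap K Ω c) ≤ 1) (G : K[X]) (hG : G.coeff 0 ≠ 0) {N : ℕ}
    (hN : 0 < N) (hd : G.natDegree ≤ N) {s s' : Ω}
    (h : aeval s' G ^ 2 * s ^ (2 * N) = aeval s G ^ 2 * s' ^ (2 * N)) (hs : v s < 1) :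
    v s = v s' := by
  have h1 := congrArg v h
  simp only [map_mul, map_pow] at h1
  rw [v_aeval_eq v hv G hG hs, one_pow, one_mul] at h1
  rcases lt_or_ge (v s') 1 with h2 | h2
  · rw [v_aeval_eq v hv G hG h2, one_pow, one_mul] at h1
    exact (pow_left_inj₀ zero_le zero_le (by omega)).1 h1
  · exfalso
    have h3 := v_aeval_le v hv G hd s'
    rw [max_eq_right h2] at h3
    have h4 : v (aeval s' G) ^ 2 ≤ v s' ^ (2 * N) := by
      rw [mul_comm, pow_mul]
      exact pow_le_pow_left₀ zero_le h3 2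
    have h5 : v s ^ (2 * N) < 1 := pow_lt_one₀ zero_le hs (by omega)
    have h6 : 0 < v s' ^ (2 * N) := pow_pos (zero_lt_one.trans_le h2) _
    have h7 : v (aeval s' G) ^ 2 * v s ^ (2 * N) < v s' ^ (2 * N) * 1 :=
      (mul_le_mul_left h4 _).trans_lt (mul_lt_mul_of_pos_left h5 h6)
    rw [h1, mul_one] at h7
    exact lt_irrefl _ h7

theorem v_shift (hv : ∀ c : K, v (algebraMap K Ω c) ≤ 1) {s t : Ω} {c : K} (hc : c ≠ 0)
    (h : s = t + algebraMap K Ω c) :
    (v t < 1 → v s = 1) ∧ (1 ≤ v s → 1 ≤ v t → v s = v t) := by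
  have h1 := v_const v hv hc
  refine ⟨fun ht => ?_, fun hs ht => ?_⟩
  · rw [h, v.map_add_eq_of_lt_right (by rwa [h1]), h1]
  · rcases ht.lt_or_eq with ht | ht
    · rw [h, v.map_add_eq_of_lt_left (by rwa [h1])]
    · refine le_antisymm ?_ (ht ▸ hs)
      rw [h]
      exact (v.map_add _ _).trans (max_le le_rfl (by rw [h1, ht]))

/-- the double ratio is a unit -/
theorem v_ratio (hv : ∀ c : K, v (algebraMap K Ω c) ≤ 1) {s t s' t' : Ω} {c : K} (hc : c ≠ 0)
    (h : s = t + algebraMap K Ω c) (h' : s' = t' + algebraMap K Ω c)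
    (h1 : v s < 1 → v s = v s') (h1' : v s' < 1 → v s' = v s)
    (h2 : v t < 1 → v t = v t') (h2' : v t' < 1 → v t' = v t) : v s * v t' = v s' * v t := by
  have g : t = s + algebraMap K Ω (-c) := by rw [h, map_neg]; ring
  have g' : t' = s' + algebraMap K Ω (-c) := by rw [h', map_neg]; ring
  have a := v_shift v hv hc h
  have a' := v_shift v hv hc h'
  have b := v_shift v hv (neg_ne_zero.2 hc) g
  have b' := v_shift v hv (neg_ne_zero.2 hc) g'
  rcases lt_or_ge (v s) 1 with p | p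
  · rw [b.1 p, b'.1 (h1 p ▸ p), h1 p]
  rcases lt_or_ge (v t) 1 with q | q
  · rw [a.1 q, a'.1 (h2 q ▸ q), h2 q]
  have p' : 1 ≤ v s' := not_lt.1 fun r => absurd (h1' r ▸ r) (not_lt.2 p)
  have q' : 1 ≤ v t' := not_lt.1 fun r => absurd (h2' r ▸ r) (not_lt.2 q)
  rw [a.2 p q, a'.2 p' q', mul_comm]

end val

variable {K Ω : Type} [Field K] [IsAlgClosed K] [Field Ω] [Algebra K Ω]

theorem mem_of_val {u : Ω}
    (h : ∀ V : ValuationSubring Ω, (∀ c : K, algebraMap K Ω c ∈ V) → u ∈ V) :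
    u ∈ (algebraMap K Ω).range := by
  have h1 : u ∈ (⨅ V : {V : ValuationSubring Ω // Set.range (algebraMap K Ω) ⊆ V.toSubring},
      V.1.toSubring) := Subring.mem_iInf.2 fun V => h V.1 fun c => V.2 ⟨c, rfl⟩
  rw [iInf_valuationSubring_superset] at h1
  have h2 : IsIntegral (Subring.closure (Set.range (algebraMap K Ω))) u := h1
  have e : Subring.closure (Set.range (algebraMap K Ω)) = (algebraMap K Ω).range := by
    rw [← RingHom.coe_range, Subring.closure_eq]
  rw [e] at h2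
  obtain ⟨p, hp, hp0⟩ := h2
  have hs : Function.Surjective (algebraMap K Ω).rangeRestrict :=
    (algebraMap K Ω).rangeRestrict_surjective
  obtain ⟨q, hq, _, hq1⟩ := lifts_and_natDegree_eq_and_monic (f := (algebraMap K Ω).rangeRestrict)
    ((mem_lifts p).2 (map_surjective _ hs p)) hp
  have h3 : IsIntegral K u := ⟨q, hq1, by
    rw [← hq, eval₂_map] at hp0
    exact hp0⟩
  exact minpoly.mem_range_of_degree_eq_one K u
    (IsAlgClosed.degree_eq_one_of_irreducible K (minpoly.irreducible h3))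

theorem ratio {x x' : Ω} (hx : Transcendental K x) {N : ℕ} (hN : 0 < N) {A₁ A₂ : K[X]} {a₁ a₂ : K}
    (ha : a₁ ≠ a₂) (d₁ : A₁.natDegree ≤ N) (d₂ : A₂.natDegree ≤ N) (e₁ : A₁.eval a₁ ≠ 0)
    (e₂ : A₂.eval a₂ ≠ 0)
    (h₁ : aeval x' A₁ ^ 2 * (x - algebraMap K Ω a₁) ^ (2 * N) =
      aeval x A₁ ^ 2 * (x' - algebraMap K Ω a₁) ^ (2 * N))
    (h₂ : aeval x' A₂ ^ 2 * (x - algebraMap K Ω a₂) ^ (2 * N) =
      aeval x A₂ ^ 2 * (x' - algebraMap K Ω a₂) ^ (2 * N)) :
    ∃ u : K, (x - algebraMap K Ω a₁) * (x' - algebraMap K Ω a₂) =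
      algebraMap K Ω u * ((x' - algebraMap K Ω a₁) * (x - algebraMap K Ω a₂)) := by
  have n0 : ∀ a : K, x - algebraMap K Ω a ≠ 0 := fun a h =>
    hx (sub_eq_zero.1 h ▸ isAlgebraic_algebraMap a)
  have n1 : x' - algebraMap K Ω a₁ ≠ 0 := fun h => by
    rw [h, zero_pow (by omega), mul_zero, sub_eq_zero.1 h, aeval_algebraMap_apply_eq_algebraMap_eval]
      at h₁
    exact mul_ne_zero (pow_ne_zero 2 ((_root_.map_ne_zero _).2 e₁)) (pow_ne_zero _ (n0 a₁)) h₁
  have tay : ∀ (A : K[X]) (a : K) (w : Ω),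
      aeval w A = aeval (w - algebraMap K Ω a) (taylor a A) := fun A a w => by
    rw [taylor_apply, aeval_comp]
    simp
  rw [tay A₁ a₁ x, tay A₁ a₁ x'] at h₁
  rw [tay A₂ a₂ x, tay A₂ a₂ x'] at h₂
  have g₁ : (taylor a₁ A₁).coeff 0 ≠ 0 := by rwa [taylor_coeff_zero]
  have g₂ : (taylor a₂ A₂).coeff 0 ≠ 0 := by rwa [taylor_coeff_zero]
  have k₁ : (taylor a₁ A₁).natDegree ≤ N := by rwa [natDegree_taylor]
  have k₂ : (taylor a₂ A₂).natDegree ≤ N := by rwa [natDegree_taylor]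
  obtain ⟨u, hu⟩ := mem_of_val (K := K) (u := (x - algebraMap K Ω a₁) * (x' - algebraMap K Ω a₂) /
      ((x' - algebraMap K Ω a₁) * (x - algebraMap K Ω a₂))) fun V hV => by
    have hv : ∀ c : K, V.valuation (algebraMap K Ω c) ≤ 1 := fun c =>
      (V.valuation_le_one_iff _).2 (hV c)
    have := v_ratio V.valuation hv (sub_ne_zero.2 ha.symm)
      (s := x - algebraMap K Ω a₁) (t := x - algebraMap K Ω a₂)
      (s' := x' - algebraMap K Ω a₁) (t' := x' - algebraMap K Ω a₂)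
      (by rw [map_sub]; ring) (by rw [map_sub]; ring)
      (v_min _ hv _ g₁ hN k₁ h₁) (v_min _ hv _ g₁ hN k₁ h₁.symm)
      (v_min _ hv _ g₂ hN k₂ h₂) (v_min _ hv _ g₂ hN k₂ h₂.symm)
    rw [← V.valuation_le_one_iff, map_div₀, map_mul, map_mul, this]
    exact div_self_le_one _
  exact ⟨u, by rw [hu, div_mul_cancel₀ _ (mul_ne_zero n1 (n0 a₂))]⟩

theorem conj_eq {x x' : Ω} (hx : Transcendental K x) {N : ℕ} (hN : 0 < N) (A : Fin 3 → K[X])
    (a : Fin 3 → K) (ha : Function.Injective a) (d : ∀ i, (A i).natDegree ≤ N)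
    (e : ∀ i, (A i).eval (a i) ≠ 0)
    (h : ∀ i, aeval x' (A i) ^ 2 * (x - algebraMap K Ω (a i)) ^ (2 * N) =
      aeval x (A i) ^ 2 * (x' - algebraMap K Ω (a i)) ^ (2 * N)) : x' = x := by
  have a01 : a 0 ≠ a 1 := fun q => absurd (ha q) (by decide)
  have a02 : a 0 ≠ a 2 := fun q => absurd (ha q) (by decide)
  have a12 : a 1 ≠ a 2 := fun q => absurd (ha q) (by decide)
  obtain ⟨u, hu⟩ := ratio hx hN a01 (d 0) (d 1) (e 0) (e 1) (h 0) (h 1)
  obtain ⟨w, hw⟩ := ratio hx hN a02 (d 0) (d 2) (e 0) (e 2) (h 0) (h 2)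
  have n0 : x - algebraMap K Ω (a 0) ≠ 0 := fun h =>
    hx (sub_eq_zero.1 h ▸ isAlgebraic_algebraMap _)
  have b1 : algebraMap K Ω (a 1 - a 0) ≠ 0 := (_root_.map_ne_zero _).2 (sub_ne_zero.2 a01.symm)
  have n1 : x' - algebraMap K Ω (a 0) ≠ 0 := fun h0 => by
    rw [h0, zero_mul, mul_zero, sub_eq_zero.1 h0, ← map_sub] at hu
    exact mul_ne_zero n0 ((_root_.map_ne_zero _).2 (sub_ne_zero.2 a01)) hu
  have lin : algebraMap K Ω ((a 2 - a 0) * (1 - u) - (a 1 - a 0) * (1 - w)) *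
      (x - algebraMap K Ω (a 0)) = algebraMap K Ω ((a 1 - a 0) * (a 2 - a 0) * (w - u)) := by
    apply mul_left_cancel₀ n1
    simp only [map_sub, map_mul, map_one]
    linear_combination (algebraMap K Ω (a 2) - algebraMap K Ω (a 0)) * hu -
      (algebraMap K Ω (a 1) - algebraMap K Ω (a 0)) * hw
  have z : (a 2 - a 0) * (1 - u) - (a 1 - a 0) * (1 - w) = 0 := by
    by_contra z
    apply hx
    have : x = algebraMap K Ω (a 0 + (a 1 - a 0) * (a 2 - a 0) * (w - u) /
        ((a 2 - a 0) * (1 - u) - (a 1 - a 0) * (1 - w))) := by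
      rw [map_add, map_div₀, ← lin, mul_div_cancel_left₀ _ ((_root_.map_ne_zero _).2 z)]
      ring
    rw [this]
    exact isAlgebraic_algebraMap _
  rw [z, map_zero, zero_mul, eq_comm, map_eq_zero] at lin
  have wu : w = u := sub_eq_zero.1 ((mul_eq_zero.1 lin).resolve_left
    (mul_ne_zero (sub_ne_zero.2 a01.symm) (sub_ne_zero.2 a02.symm)))
  have u1 : u = 1 := by
    apply mul_left_cancel₀ (sub_ne_zero.2 a12)
    rw [wu] at z
    linear_combination z
  rw [u1, map_one] at hu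
  apply mul_left_cancel₀ b1
  rw [map_sub]
  linear_combination hu

/-- the three functions generate the field -/
theorem gen [CharZero K] {F : Type} [Field F] [Algebra K F] {x : F} (hx : Transcendental K x)
    {N : ℕ} (hN : 0 < N) (A : Fin 3 → K[X]) (a c : Fin 3 → K) (ha : Function.Injective a)
    (d : ∀ i, (A i).natDegree ≤ N) (e : ∀ i, (A i).eval (a i) ≠ 0) (T : Fin 3 → F)
    (h : ∀ i, aeval x (A i) ^ 2 =
      T i * (algebraMap K F (c i) * (x - algebraMap K F (a i)) ^ (2 * N))) :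
    x ∈ IntermediateField.adjoin K (Set.range T) := by
  set E := IntermediateField.adjoin K (Set.range T) with hE
  have hT : ∀ i, T i ∈ E := fun i => IntermediateField.subset_adjoin K _ ⟨i, rfl⟩
  let G : Fin 3 → E[X] := fun i => ((A i).map (algebraMap K E)) ^ 2 -
    C ⟨T i, hT i⟩ * (C (algebraMap K E (c i)) * (X - C (algebraMap K E (a i))) ^ (2 * N))
  have hG : ∀ i, aeval x (G i) = 0 := fun i => by
    simp only [G, map_sub, map_mul, map_pow, aeval_map_algebraMap, aeval_C, aeval_X, h i,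
      ← IsScalarTower.algebraMap_apply]
    exact sub_self _
  have hG0 : G 0 ≠ 0 := fun q => by
    have := congrArg (eval (algebraMap K E (a 0))) q
    simp only [G, eval_sub, eval_mul, eval_pow, eval_C, eval_X, sub_self, eval_zero,
      eval_map_algebraMap, aeval_algebraMap_apply_eq_algebraMap_eval] at this
    rw [zero_pow (by omega : 2 * N ≠ 0), mul_zero, mul_zero, sub_zero] at this
    exact pow_ne_zero 2 ((_root_.map_ne_zero _).2 (e 0)) this
  have hi : IsIntegral E x := (IsAlgebraic.isIntegral ⟨G 0, hG0, hG 0⟩)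
  haveI : CharZero E := charZero_of_injective_algebraMap (algebraMap K E).injective
  let Ω := AlgebraicClosure F
  have key : ∀ x' : Ω, aeval x' (minpoly E x) = 0 → x' = algebraMap F Ω x := fun x' hx' => by
    refine conj_eq (K := K) ((transcendental_algebraMap_iff (algebraMap F Ω).injective).2 hx) hN
      A a ha d e fun i => ?_
    obtain ⟨q, hq⟩ := minpoly.dvd E x (hG i)
    have h1 : aeval x' (G i) = 0 := by rw [hq, map_mul, hx', zero_mul]
    have h2 := congrArg (algebraMap F Ω) (h i)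
    simp only [G, map_sub, map_mul, map_pow, aeval_map_algebraMap, aeval_C, aeval_X,
      ← IsScalarTower.algebraMap_apply, ← aeval_algebraMap_apply] at h1 h2
    have h3 : algebraMap E Ω ⟨T i, hT i⟩ = algebraMap F Ω (T i) := rfl
    rw [h3, sub_eq_zero] at h1
    rw [h1, h2]
    ring
  have hsep : (minpoly E x).Separable := (minpoly.irreducible hi).separable
  have hcard := card_rootSet_eq_natDegree hsep (IsAlgClosed.splits ((minpoly E x).map
    (algebraMap E Ω)))
  have hle : Fintype.card ((minpoly E x).rootSet Ω) ≤ 1 :=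
    Fintype.card_le_one_iff.2 fun p q => Subtype.ext
      ((key p (mem_rootSet.1 p.2).2).trans (key q (mem_rootSet.1 q.2).2).symm)
  have hpos := minpoly.natDegree_pos hi
  have h1 : (minpoly E x).natDegree = 1 := by omega
  obtain ⟨z, hz⟩ := minpoly.natDegree_eq_one_iff.1 h1
  rw [← hz]
  exact z.2

end

end Pool.Agent.MP_8d06cc_nt.DA
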