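import Mathlib

/-! A derivation with a pole cannot kill a generating family of regular functions. -/

namespace Pool.Agent.MP_8d06cc_nt.DA

open PowerSeries

noncomputable section

/-- an additive map with the product rule extends to the fraction field -/
theorem ext_der {A F : Type} [CommRing A] [IsDomain A] [Field F] [Algebra A F] [IsFractionRing A F]
    (D : A → A) (hadd : ∀ a b, D (a + b) = D a + D b)
    (hmul : ∀ a b, D (a * b) = a * D b + b * D a) :
    ∃ E : Derivation ℤ F F, ∀ a, E (algebraMap A F a) = algebraMap A F (D a) := by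
  have h0 : D 0 = 0 := by simpa using hadd 0 0
  have h1 : D 1 = 0 := by simpa using hmul 1 1
  let g : A → TrivSqZeroExt F F := fun a => (algebraMap A F a, algebraMap A F (D a))
  have g1 : ∀ a, (g a).fst = algebraMap A F a := fun a => rfl
  have g2 : ∀ a, (g a).snd = algebraMap A F (D a) := fun a => rfl
  let φ : A →+* TrivSqZeroExt F F :=
    { toFun := g
      map_one' := TrivSqZeroExt.ext (by rw [g1, map_one]; rfl) (by rw [g2, h1, map_zero]; rfl)
      map_mul' := fun a b => TrivSqZeroExt.ext (by rw [TrivSqZeroExt.fst_mul, g1, g1, g1, map_mul])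
        (by
          rw [TrivSqZeroExt.snd_mul, g1, g1, g2, g2, g2, hmul, map_add, map_mul, map_mul,
            smul_eq_mul, MulOpposite.smul_eq_mul_unop, MulOpposite.unop_op, mul_comm _
              (algebraMap A F b)])
      map_zero' := TrivSqZeroExt.ext (by rw [g1, map_zero]; rfl) (by rw [g2, h0, map_zero]; rfl)
      map_add' := fun a b => TrivSqZeroExt.ext (by rw [TrivSqZeroExt.fst_add, g1, g1, g1, map_add])
        (by rw [TrivSqZeroExt.snd_add, g2, g2, g2, hadd, map_add]) }
  have hφ1 : ∀ a, (φ a).fst = algebraMap A F a := g1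
  have hφ2 : ∀ a, (φ a).snd = algebraMap A F (D a) := g2
  have hu : ∀ y : nonZeroDivisors A, IsUnit (φ y) := fun y => by
    rw [TrivSqZeroExt.isUnit_iff_isUnit_fst, hφ1]
    exact IsLocalization.map_units F y
  let ψ : F →+* TrivSqZeroExt F F := IsLocalization.lift hu
  have hψ : ∀ a, ψ (algebraMap A F a) = φ a := fun a => IsLocalization.lift_eq hu a
  have hf : ∀ z, (ψ z).fst = z := fun z => by
    have : (TrivSqZeroExt.fstHom F F F).toRingHom.comp ψ = RingHom.id F :=
      IsLocalization.ringHom_ext (nonZeroDivisors A) (RingHom.ext fun a => by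
        change (ψ (algebraMap A F a)).fst = algebraMap A F a
        rw [hψ, hφ1])
    exact DFunLike.congr_fun this z
  let L : F →+ F :=
    { toFun := fun z => (ψ z).snd
      map_zero' := by simp
      map_add' := fun a b => by simp }
  refine ⟨Derivation.mk' L.toIntLinearMap fun a b => ?_, fun a => ?_⟩
  · change (ψ (a * b)).snd = a • (ψ b).snd + b • (ψ a).snd
    rw [map_mul, TrivSqZeroExt.snd_mul, hf, hf]
    simp [mul_comm]
  · change (ψ (algebraMap A F a)).snd = _
    rw [hψ, hφ2]

variable {K : Type} [Field K]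

/-- coefficientwise derivation of a series -/
def dc (d : Derivation ℤ K K) (g : K⟦X⟧) : K⟦X⟧ := PowerSeries.mk fun n => d (coeff n g)

theorem dc_add (d : Derivation ℤ K K) (a b : K⟦X⟧) : dc d (a + b) = dc d a + dc d b := by
  ext n
  simp [dc]

theorem dc_mul (d : Derivation ℤ K K) (a b : K⟦X⟧) :
    dc d (a * b) = a * dc d b + b * dc d a := by
  ext n
  rw [mul_comm b]
  simp only [dc, coeff_mk, map_add, coeff_mul, map_sum, Derivation.leibniz, smul_eq_mul,
    Finset.sum_add_distrib]
  congr 1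
  exact Finset.sum_congr rfl fun x _ => mul_comm _ _

theorem dc_C (d : Derivation ℤ K K) (c : K) : dc d (C c) = C (d c) := by
  ext n
  simp only [dc, coeff_mk, coeff_C]
  split_ifs <;> simp

theorem dc_X (d : Derivation ℤ K K) : dc d (X : K⟦X⟧) = 0 := by
  ext n
  simp only [dc, coeff_mk, coeff_X]
  split_ifs <;> simp

/-- the derivation with the pole cleared -/
def DD (d : Derivation ℤ K K) (π : ℕ) (s g : K⟦X⟧) : K⟦X⟧ :=
  X ^ π * dc d g + s * derivative K g

theorem DD_add (d : Derivation ℤ K K) (π : ℕ) (s a b : K⟦X⟧) :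
    DD d π s (a + b) = DD d π s a + DD d π s b := by
  simp only [DD, dc_add, map_add]
  ring

theorem DD_mul (d : Derivation ℤ K K) (π : ℕ) (s a b : K⟦X⟧) :
    DD d π s (a * b) = a * DD d π s b + b * DD d π s a := by
  simp only [DD, dc_mul, Derivation.leibniz, smul_eq_mul]
  ring

theorem DD_pow (d : Derivation ℤ K K) (π : ℕ) (s : K⟦X⟧) (m : ℕ) :
    DD d π s (X ^ (m + 1)) = X ^ m * (((m : K⟦X⟧) + 1) * s) := by
  induction m with
  | zero => simp [DD, dc_X]
  | succ m ih =>
    have h : DD d π s X = s := by simp [DD, dc_X]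
    rw [pow_succ _ (m + 1), DD_mul, ih, h]
    push_cast
    ring

theorem fac_uniq {a b : ℕ} {u w : K⟦X⟧} (hu : constantCoeff u ≠ 0) (hw : constantCoeff w ≠ 0)
    (h : X ^ a * u = X ^ b * w) : a = b := by
  have key : ∀ {a b : ℕ} {u w : K⟦X⟧}, constantCoeff u ≠ 0 → X ^ a * u = X ^ b * w → b ≤ a := by
    intro a b u w hu h
    by_contra hl
    obtain ⟨c, rfl⟩ : ∃ c, b = a + (c + 1) := ⟨b - a - 1, by omega⟩
    rw [pow_add, mul_assoc] at h
    have := mul_left_cancel₀ (pow_ne_zero a X_ne_zero) h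
    apply hu
    rw [this]
    simp
  exact le_antisymm (key hw h.symm) (key hu h)

theorem fac_ex {g : K⟦X⟧} (hg : g ≠ 0) : ∃ (m : ℕ) (u : K⟦X⟧), constantCoeff u ≠ 0 ∧ g = X ^ m * u :=
  ⟨g.order.toNat, g.divXPowOrder, constantCoeff_divXPowOrder_eq_zero_iff.not.2 hg,
    X_pow_order_mul_divXPowOrder.symm⟩

theorem ord_dvd [CharZero K] (d : Derivation ℤ K K) {π : ℕ} {s : K⟦X⟧} (hs : constantCoeff s ≠ 0)
    (S : Set K⟦X⟧) (hS : ∀ g ∈ S, ∃ g' ∈ S, DD d π s g = X ^ π * g') (m : ℕ) :
    ∀ u : K⟦X⟧, constantCoeff u ≠ 0 → X ^ m * u ∈ S → π + 1 ∣ m := by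
  induction m using Nat.strong_induction_on with
  | _ m ih =>
    intro u hu hm
    cases m with
    | zero => exact dvd_zero _
    | succ m =>
      obtain ⟨g', hg', h⟩ := hS _ hm
      have e : DD d π s (X ^ (m + 1) * u) = X ^ m * (X * DD d π s u + u * (((m : K⟦X⟧) + 1) * s)) := by
        rw [DD_mul, DD_pow]
        ring
      have hw : constantCoeff (X * DD d π s u + u * (((m : K⟦X⟧) + 1) * s)) ≠ 0 := by
        simp only [map_add, map_mul, constantCoeff_X, zero_mul, zero_add, map_natCast, map_one]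
        exact mul_ne_zero hu (mul_ne_zero (Nat.cast_add_one_ne_zero m) hs)
      have hg0 : g' ≠ 0 := by
        rintro rfl
        rw [e, mul_zero] at h
        rcases mul_eq_zero.1 h with h | h
        · exact pow_ne_zero m X_ne_zero h
        · exact hw (by rw [h, map_zero])
      obtain ⟨j, u', hu', rfl⟩ := fac_ex hg0
      rw [e, ← mul_assoc (X ^ π), ← pow_add] at h
      have hj := fac_uniq hw hu' h
      have := ih j (by omega) u' hu' hg'
      rw [show m + 1 = π + 1 + j by omega]
      exact dvd_add dvd_rfl this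

theorem loc [CharZero K] {F : Type} [Field F] [Algebra K⟦X⟧ F] [IsFractionRing K⟦X⟧ F]
    [Algebra K F] [IsScalarTower K K⟦X⟧ F] (d : Derivation ℤ K K) {π : ℕ} (hπ : 0 < π)
    {s : K⟦X⟧} (hs : constantCoeff s ≠ 0) :
    ∃ δ : Derivation ℤ F F, (∀ c, δ (algebraMap K F c) = algebraMap K F (d c)) ∧
      δ (algebraMap K⟦X⟧ F X) * algebraMap K⟦X⟧ F X ^ π = algebraMap K⟦X⟧ F s ∧
      ∀ (ι : Type) (T : ι → F), (∀ i, T i ∈ (algebraMap K⟦X⟧ F).range) → (∀ i, δ (T i) = 0) →
        algebraMap K⟦X⟧ F X ∉ IntermediateField.adjoin K (Set.range T) := by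
  obtain ⟨E, hE⟩ := ext_der (F := F) (DD d π s) (DD_add d π s) (DD_mul d π s)
  have inj : Function.Injective (algebraMap K⟦X⟧ F) := IsFractionRing.injective _ _
  have hy : algebraMap K⟦X⟧ F X ^ π ≠ 0 :=
    pow_ne_zero _ ((map_ne_zero_iff _ inj).2 X_ne_zero)
  have hC : ∀ c : K, algebraMap K F c = algebraMap K⟦X⟧ F (C c) := fun c =>
    IsScalarTower.algebraMap_apply K K⟦X⟧ F c
  have hDC : ∀ c : K, DD d π s (C c) = X ^ π * C (d c) := fun c => by simp [DD, dc_C]
  refine ⟨(algebraMap K⟦X⟧ F X ^ π)⁻¹ • E, fun c => ?_, ?_, fun ι T hT h0 hm => ?_⟩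
  · rw [Derivation.smul_apply, hC, hE, hDC, map_mul, map_pow, smul_eq_mul, hC,
      inv_mul_cancel_left₀ hy]
  · have h : DD d π s X = s := by simp [DD, dc_X]
    rw [Derivation.smul_apply, hE, h, smul_eq_mul, mul_comm, mul_inv_cancel_left₀ hy]
  · choose t ht using hT
    have hS : ∀ g ∈ Algebra.adjoin K (Set.range t), ∃ g' ∈ Algebra.adjoin K (Set.range t),
        DD d π s g = X ^ π * g' := by
      intro g hg
      induction hg using Algebra.adjoin_induction with
      | mem x hx =>
        obtain ⟨i, rfl⟩ := hx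
        refine ⟨0, zero_mem _, inj ?_⟩
        have := h0 i
        rw [Derivation.smul_apply, smul_eq_mul, ← ht, hE] at this
        rw [(mul_eq_zero.1 this).resolve_left (inv_ne_zero hy), mul_zero, map_zero]
      | algebraMap r => exact ⟨C (d r), Subalgebra.algebraMap_mem _ (d r), hDC r⟩
      | add x y _ _ hx hy =>
        obtain ⟨x', h1, h2⟩ := hx
        obtain ⟨y', h3, h4⟩ := hy
        exact ⟨x' + y', add_mem h1 h3, by rw [DD_add, h2, h4, mul_add]⟩
      | mul x y mx my hx hy =>
        obtain ⟨x', h1, h2⟩ := hx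
        obtain ⟨y', h3, h4⟩ := hy
        exact ⟨x * y' + y * x', add_mem (mul_mem mx h3) (mul_mem my h1), by
          rw [DD_mul, h2, h4]; ring⟩
    have hr : ∀ P : MvPolynomial ι K, MvPolynomial.aeval T P =
        algebraMap K⟦X⟧ F (MvPolynomial.aeval t P) := fun P => by
      have : T = fun i => IsScalarTower.toAlgHom K K⟦X⟧ F (t i) := funext fun i => (ht i).symm
      rw [this, ← MvPolynomial.comp_aeval]
      rfl
    have hmem : ∀ P : MvPolynomial ι K,
        MvPolynomial.aeval t P ∈ Algebra.adjoin K (Set.range t) := fun P => by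
      rw [Algebra.adjoin_range_eq_range_aeval]
      exact ⟨P, rfl⟩
    obtain ⟨r, q, hq⟩ := (IntermediateField.mem_adjoin_range_iff K T _).1 hm
    rw [hr, hr] at hq
    have m1 := hmem r
    have m2 := hmem q
    generalize MvPolynomial.aeval t r = g₁ at hq m1
    generalize MvPolynomial.aeval t q = g₂ at hq m2
    have h2 : g₂ ≠ 0 := by
      rintro rfl
      rw [map_zero, div_zero] at hq
      exact (map_ne_zero_iff _ inj).2 X_ne_zero hq
    have h3 : g₁ = X * g₂ := inj (by
      rw [map_mul, hq, div_mul_cancel₀ _ ((map_ne_zero_iff _ inj).2 h2)])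
    obtain ⟨j, u, hu, rfl⟩ := fac_ex h2
    rw [h3, ← mul_assoc, ← pow_succ'] at m1
    have a1 := ord_dvd d hs _ hS _ u hu m1
    have a2 := ord_dvd d hs _ hS _ u hu m2
    have a3 := Nat.le_of_dvd one_pos ((Nat.dvd_add_right a2).1 a1)
    omega

end

end Pool.Agent.MP_8d06cc_nt.DA
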