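import Pool.Agent.MP_8d06cc_nt.DA.Gam
import Pool.Agent.MP_8d06cc_nt.DA.Gen
import Pool.Agent.MP_8d06cc_nt.DA.Loc
import Pool.Agent.MP_249f74_an.H88.Deriv

/-! Block DA. -/

namespace Pool.Agent.MP_8d06cc_nt.DA

open Polynomial
open scoped PowerSeries

noncomputable section

variable {K : Type} [Field K]

theorem reg {F : Type} [Field F] [Algebra K F] (O : Subalgebra K F) {A : K[X]} {N : ℕ}
    (hA : A.natDegree ≤ N) {x : F} {a : K} (h0 : x - algebraMap K F a ≠ 0)
    (hz : (x - algebraMap K F a)⁻¹ ∈ O) : aeval x A * (x - algebraMap K F a)⁻¹ ^ N ∈ O := by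
  have tay : aeval x A = aeval (x - algebraMap K F a) (taylor a A) := by
    rw [taylor_apply, aeval_comp]
    simp
  have hd : (taylor a A).natDegree < N + 1 := by rw [natDegree_taylor]; omega
  rw [tay, aeval_eq_sum_range' hd, Finset.sum_mul]
  refine O.sum_mem fun i hi => ?_
  obtain ⟨j, rfl⟩ : ∃ j, N = i + j := ⟨N - i, by have := Finset.mem_range.1 hi; omega⟩
  rw [smul_mul_assoc, pow_add, ← mul_assoc, ← mul_pow, mul_inv_cancel₀ h0, one_pow, one_mul]
  exact O.smul_mem (O.pow_mem hz _) _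

section

variable {F : Type} [Field F] [Algebra K⟦X⟧ F] [IsFractionRing K⟦X⟧ F] [Algebra K F]
  [IsScalarTower K K⟦X⟧ F]

omit [IsFractionRing K⟦X⟧ F] in
theorem alg_aeval (s : K⟦X⟧) (g : K[X]) :
    algebraMap K⟦X⟧ F (aeval s g) = aeval (algebraMap K⟦X⟧ F s) g :=
  (aeval_algebraMap_apply F s g).symm

theorem cc_aeval (s : K⟦X⟧) (g : K[X]) :
    PowerSeries.constantCoeff (aeval s g) = g.eval (PowerSeries.constantCoeff s) := by
  induction g using Polynomial.induction_on' with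
  | add p q hp hq => simp [hp, hq]
  | monomial n a =>
    rw [aeval_monomial, map_mul, map_pow, eval_monomial]
    congr 1

theorem y_trans : Transcendental K (algebraMap K⟦X⟧ F PowerSeries.X) := by
  rw [transcendental_algebraMap_iff (IsFractionRing.injective _ _), transcendental_iff]
  intro p hp
  rw [← Polynomial.coe_eq_zero_iff, ← hp, ← eval₂_C_X_eq_coe]
  rfl

theorem no_pole [CharZero K] [IsAlgClosed K] (d : Derivation ℤ K K) {f : K[X]} {N : ℕ}
    (P : Fin 3 → PD K) (R : Fin 3 → K[X]) (h : ∀ i, (P i).OK f N) (hr : ∀ i, IsR d f N (P i) (R i))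
    (ha : Function.Injective fun i => (P i).a) {q r : K[X]} (hqr : ∀ i, R i * q = r * (P i).Q)
    (hq : q ≠ 0) {π : ℕ} (hπ : 0 < π) {s : K⟦X⟧} (hs : PowerSeries.constantCoeff s ≠ 0) (x : F)
    (hx : Transcendental K x)
    (hz : ∀ i, (x - algebraMap K F (P i).a)⁻¹ ∈ (algebraMap K⟦X⟧ F).range)
    (hy : ∀ E : IntermediateField K F, x ∈ E → algebraMap K⟦X⟧ F PowerSeries.X ∈ E)
    (hδ : ∀ δ : Derivation ℤ F F,
      (∀ c, δ (algebraMap K F c) = algebraMap K F (d c)) →
      δ (algebraMap K⟦X⟧ F PowerSeries.X) * algebraMap K⟦X⟧ F PowerSeries.X ^ π =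
        algebraMap K⟦X⟧ F s → aeval x q * δ x = -aeval x r) : False := by
  obtain ⟨δ, h1, h2, h3⟩ := loc (F := F) d hπ hs
  have n0 : ∀ a : K, x - algebraMap K F a ≠ 0 := fun a h =>
    hx (sub_eq_zero.1 h ▸ isAlgebraic_algebraMap a)
  let T : Fin 3 → F := fun i => algebraMap K F (P i).c⁻¹ *
    (aeval x (P i).A * (x - algebraMap K F (P i).a)⁻¹ ^ N) ^ 2
  have hT : ∀ i, aeval x (P i).A ^ 2 = T i * (algebraMap K F (P i).c *
      (x - algebraMap K F (P i).a) ^ (2 * N)) := fun i => by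
    have c0 : algebraMap K F (P i).c ≠ 0 := (_root_.map_ne_zero _).2 (h i).hc
    have := n0 (P i).a
    simp only [T, map_inv₀, mul_comm 2 N, pow_mul, inv_pow]
    field_simp
  refine h3 (Fin 3) T (fun i => ?_) (fun i => ?_) (hy _ ?_)
  · let O := (IsScalarTower.toAlgHom K K⟦X⟧ F).range
    have : T i ∈ O := O.mul_mem (O.algebraMap_mem _) (O.pow_mem (reg O (h i).dA (n0 _) (hz i)) 2)
    exact this
  · exact kill δ h1 (h i) (hr i) (hqr i) (fun e => hq (transcendental_iff.1 hx q e))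
      (hδ δ h1 h2) (n0 _) (hT i)
  · exact gen hx (h 0).pos (fun i => (P i).A) (fun i => (P i).a) (fun i => (P i).c) ha
      (fun i => (h i).dA) (fun i => (h i).hA) T hT

variable (F) in
include F in
theorem core [CharZero K] [IsAlgClosed K] (d : Derivation ℤ K K) {f : K[X]} {N : ℕ}
    (P : Fin 3 → PD K) (R : Fin 3 → K[X]) (h : ∀ i, (P i).OK f N) (hr : ∀ i, IsR d f N (P i) (R i))
    (ha : Function.Injective fun i => (P i).a) {q r : K[X]} (hqr : ∀ i, R i * q = r * (P i).Q)
    (hq : q ≠ 0) (hc : IsCoprime q r) : q.natDegree = 0 ∧ r.natDegree ≤ 2 := by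
  have inj : Function.Injective (algebraMap K⟦X⟧ F) := IsFractionRing.injective _ _
  have hC : ∀ c : K, algebraMap K F c = algebraMap K⟦X⟧ F (PowerSeries.C c) := fun c =>
    IsScalarTower.algebraMap_apply K K⟦X⟧ F c
  have hyt := y_trans (K := K) (F := F)
  have inv_mem : ∀ u : K⟦X⟧, PowerSeries.constantCoeff u ≠ 0 →
      (algebraMap K⟦X⟧ F u)⁻¹ = algebraMap K⟦X⟧ F u⁻¹ := fun u hu => by
    apply inv_eq_of_mul_eq_one_right
    rw [← map_mul, PowerSeries.mul_inv_cancel u hu, map_one]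
  have hy0 : algebraMap K⟦X⟧ F PowerSeries.X ≠ 0 :=
    (map_ne_zero_iff _ inj).2 PowerSeries.X_ne_zero
  have q0 : q.natDegree = 0 := by
    by_contra hn
    obtain ⟨e, he⟩ := IsAlgClosed.exists_root q (fun h0 => hn (natDegree_eq_zero_iff_degree_le_zero.2 h0.le))
    have re : r.eval e ≠ 0 := fun h0 => by
      obtain ⟨u, v, huv⟩ := hc
      have := congrArg (eval e) huv
      rw [eval_add, eval_mul, eval_mul, he.eq_zero, h0] at this
      simp at this
    have ea : ∀ i, e - (P i).a ≠ 0 := fun i h0 => by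
      have := congrArg (eval e) (hqr i)
      rw [eval_mul, eval_mul, he.eq_zero, mul_zero, sub_eq_zero.1 h0, (h i).Qa,
        ← sub_eq_zero.1 h0] at this
      exact mul_ne_zero re (h i).b_ne this.symm
    obtain ⟨q₁, hq₁, hq₂⟩ := exists_eq_pow_rootMultiplicity_mul_and_not_dvd q hq e
    have hπ : 0 < q.rootMultiplicity e := (rootMultiplicity_pos hq).2 he
    generalize q.rootMultiplicity e = π at hq₁ hπ
    have q1e : q₁.eval e ≠ 0 := fun h0 => hq₂ (dvd_iff_isRoot.2 h0)
    let x₀ : K⟦X⟧ := PowerSeries.C e + PowerSeries.X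
    have cx : PowerSeries.constantCoeff x₀ = e := by simp [x₀]
    have ex : algebraMap K⟦X⟧ F x₀ =
        algebraMap K F e + algebraMap K⟦X⟧ F PowerSeries.X := by
      rw [hC, ← map_add]
    have cq : PowerSeries.constantCoeff (aeval x₀ q₁) ≠ 0 := by rwa [cc_aeval, cx]
    refine no_pole d P R h hr ha hqr hq hπ
      (s := -(PowerSeries.C (d e) * PowerSeries.X ^ π) - aeval x₀ r * (aeval x₀ q₁)⁻¹) ?_
      (algebraMap K⟦X⟧ F x₀) (fun hx => hyt ?_) (fun i => ?_) (fun E hE => ?_)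
      (fun δ h1 h2 => ?_)
    · simp only [map_sub, map_neg, map_mul, map_pow, PowerSeries.constantCoeff_X,
        zero_pow hπ.ne', mul_zero, neg_zero, zero_sub, PowerSeries.constantCoeff_inv, cc_aeval, cx]
      exact neg_ne_zero.2 (mul_ne_zero re (inv_ne_zero q1e))
    · have := hx.sub (isAlgebraic_algebraMap e)
      rwa [ex, add_sub_cancel_left] at this
    · rw [hC, ← map_sub, inv_mem _ (by
        rw [map_sub, cx, PowerSeries.constantCoeff_C]; exact ea i)]
      exact ⟨_, rfl⟩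
    · have := E.sub_mem hE (E.algebraMap_mem e)
      rwa [ex, add_sub_cancel_left] at this
    · have e1 : algebraMap K⟦X⟧ F (aeval x₀ q₁) ≠ 0 :=
        (map_ne_zero_iff _ inj).2 fun h0 => cq (by rw [h0, map_zero])
      rw [map_sub, map_neg, map_mul, map_mul, map_pow, ← inv_mem _ cq, ← hC, alg_aeval] at h2
      rw [alg_aeval] at h2 e1
      have e2 : δ (algebraMap K⟦X⟧ F x₀) =
          algebraMap K F (d e) + δ (algebraMap K⟦X⟧ F PowerSeries.X) := by
        rw [ex, map_add, h1]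
      have e3 : aeval (algebraMap K⟦X⟧ F x₀) q = algebraMap K⟦X⟧ F PowerSeries.X ^ π *
          aeval (algebraMap K⟦X⟧ F x₀) q₁ := by
        rw [hq₁, map_mul, map_pow, map_sub, aeval_X, aeval_C, ex, add_sub_cancel_left]
      have e4 := mul_inv_cancel₀ e1
      rw [e2, e3]
      linear_combination aeval (algebraMap K⟦X⟧ F x₀) q₁ * h2 -
        aeval (algebraMap K⟦X⟧ F x₀) r * e4
  refine ⟨q0, ?_⟩
  by_contra hn
  obtain ⟨π, hπ⟩ : ∃ π, r.natDegree = π + 1 + 2 := ⟨r.natDegree - 3, by omega⟩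
  have r0 : r ≠ 0 := by
    rintro rfl
    simp at hπ
  have qc := eq_C_of_natDegree_eq_zero q0
  have qc0 : q.coeff 0 ≠ 0 := fun h0 => hq (by rw [qc, h0, C_0])
  refine no_pole d P R h hr ha hqr hq (Nat.succ_pos π)
    (s := PowerSeries.C (q.coeff 0)⁻¹ * aeval PowerSeries.X r.reverse) ?_
    (algebraMap K⟦X⟧ F PowerSeries.X)⁻¹ (fun hx => hyt (IsAlgebraic.inv_iff.1 hx))
    (fun i => ?_) (fun E hE => ?_) (fun δ h1 h2 => ?_)
  · rw [map_mul, cc_aeval, PowerSeries.constantCoeff_X, PowerSeries.constantCoeff_C,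
      ← coeff_zero_eq_eval_zero, coeff_zero_reverse]
    exact mul_ne_zero (inv_ne_zero qc0) (leadingCoeff_ne_zero.2 r0)
  · have c1 : PowerSeries.constantCoeff (1 - PowerSeries.C (P i).a * PowerSeries.X) ≠ 0 := by simp
    refine ⟨PowerSeries.X * (1 - PowerSeries.C (P i).a * PowerSeries.X)⁻¹, ?_⟩
    rw [map_mul, ← inv_mem _ c1, map_sub, map_mul, map_one, ← hC, ← div_eq_mul_inv, ← inv_div]
    congr 1
    field_simp
  · simpa using E.inv_mem hE
  · haveI : Invertible (algebraMap K⟦X⟧ F PowerSeries.X)⁻¹ :=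
      invertibleOfNonzero (inv_ne_zero hy0)
    have e1 := eval₂_reverse_mul_pow (algebraMap K F)
      (algebraMap K⟦X⟧ F PowerSeries.X)⁻¹ r
    rw [invOf_eq_inv, inv_inv, hπ, ← aeval_def, ← aeval_def] at e1
    rw [map_mul, ← hC, alg_aeval, map_inv₀] at h2
    have c0 : algebraMap K F (q.coeff 0) ≠ 0 := (_root_.map_ne_zero _).2 qc0
    rw [Derivation.leibniz_inv, smul_eq_mul, ← e1]
    conv_lhs => rw [qc, aeval_C]
    have h3 : aeval (algebraMap K⟦X⟧ F PowerSeries.X) r.reverse =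
        algebraMap K F (q.coeff 0) * (δ (algebraMap K⟦X⟧ F PowerSeries.X) *
          algebraMap K⟦X⟧ F PowerSeries.X ^ π.succ) := by
      rw [h2, mul_inv_cancel_left₀ c0]
    rw [h3, Nat.succ_eq_add_one, pow_add _ (π + 1) 2]
    have e5 : algebraMap K⟦X⟧ F PowerSeries.X ^ (π + 1) *
        (algebraMap K⟦X⟧ F PowerSeries.X)⁻¹ ^ (π + 1) = 1 := by
      rw [← mul_pow, mul_inv_cancel₀ hy0, one_pow]
    generalize algebraMap K⟦X⟧ F PowerSeries.X ^ (π + 1) = u at e5 ⊢
    generalize (algebraMap K⟦X⟧ F PowerSeries.X)⁻¹ = w at e5 ⊢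
    generalize w ^ (π + 1) = w' at e5 ⊢
    linear_combination (algebraMap K F (q.coeff 0) * δ (algebraMap K⟦X⟧ F PowerSeries.X) *
      w ^ 2) * e5

end

theorem d3 [CharZero K] [IsAlgClosed K] (d : Derivation ℤ K K) {f : K[X]} {N : ℕ}
    (P : Fin 3 → PD K) (R : Fin 3 → K[X]) (h : ∀ i, (P i).OK f N) (hr : ∀ i, IsR d f N (P i) (R i))
    (ha : Function.Injective fun i => (P i).a) (h0 : ∀ i, d (P i).a = 0)
    (hc : ∀ i, R i * (P 0).Q = R 0 * (P i).Q) : R 0 = 0 := by
  classical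
  have Q0 : (P 0).Q ≠ 0 := fun e => (h 0).b_ne (by rw [← (h 0).Qa, e, eval_zero])
  obtain ⟨q, r, g, hco, h1, h2⟩ : ∃ q r g : K[X], IsCoprime q r ∧ g * q = (P 0).Q ∧
      g * r = R 0 := by
    obtain ⟨q, r, h1, h2, h3⟩ := extract_gcd (P 0).Q (R 0)
    exact ⟨q, r, _, (gcd_isUnit_iff_isRelPrime.1 h3).isCoprime, h1.symm, h2.symm⟩
  have g0 : g ≠ 0 := fun e => Q0 (by rw [← h1, e, zero_mul])
  have hq : q ≠ 0 := fun e => Q0 (by rw [← h1, e, mul_zero])
  have hqr : ∀ i, R i * q = r * (P i).Q := fun i => by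
    apply mul_left_cancel₀ g0
    linear_combination R i * h1 + hc i - (P i).Q * h2
  obtain ⟨_, h4⟩ := core (FractionRing K⟦X⟧) d P R h hr ha hqr hq hco
  have r0 : r = 0 := by
    refine eq_zero_of_natDegree_lt_card_of_eval_eq_zero r ha (fun i => ?_) (by simp; omega)
    have := congrArg (eval (P i).a) (hqr i)
    rw [eval_mul, eval_mul, (hr i).val, h0 i, (h i).Qa] at this
    exact (mul_eq_zero.1 (by rw [← this]; simp)).resolve_right (h i).b_ne
  rw [← h2, r0, mul_zero]

theorem root_const [CharZero K] {d : Derivation ℤ K K} {f : K[X]} {N : ℕ} {P : PD K}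
    (hf : f ≠ 0) (h : P.OK f N) (hr : IsR d f N P 0) {e : K} (he : f.IsRoot e) : d e = 0 := by
  have B0 : P.B ≠ 0 := fun z => h.hB (by rw [z, eval_zero])
  have g0 : f * P.B ^ 2 ≠ 0 := mul_ne_zero hf (pow_ne_zero 2 B0)
  have W0 := hr.eqn
  rw [mul_zero] at W0
  have i2 := idII (cD d) f P.A P.B
  rw [W0, mul_zero] at i2
  have hg : cD d (f * P.B ^ 2) * (P.A ^ 2 - f * P.B ^ 2) =
      f * P.B ^ 2 * cD d (P.A ^ 2 - f * P.B ^ 2) := by
    rw [(cD d).leibniz f, pow_two P.B, (cD d).leibniz P.B, smul_eq_mul, smul_eq_mul, smul_eq_mul,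
      ← pow_two]
    linear_combination (-P.B) * i2
  have ne : (P.A ^ 2 - f * P.B ^ 2).eval e ≠ 0 := by
    rw [h.eqn]
    simp only [eval_mul, eval_pow, eval_sub, eval_C, eval_X]
    refine mul_ne_zero h.hc (pow_ne_zero _ (sub_ne_zero.2 ?_))
    rintro rfl
    exact h.hf he
  generalize P.A ^ 2 - f * P.B ^ 2 = ν at hg ne
  obtain ⟨g₁, h1, h2⟩ := exists_eq_pow_rootMultiplicity_mul_and_not_dvd _ g0 e
  have hπ : 0 < (f * P.B ^ 2).rootMultiplicity e :=
    (rootMultiplicity_pos g0).2 (by rw [IsRoot, eval_mul, he.eq_zero, zero_mul])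
  generalize (f * P.B ^ 2).rootMultiplicity e = m at h1 hπ
  obtain ⟨m, rfl⟩ : ∃ n, m = n + 1 := ⟨m - 1, by omega⟩
  rw [h1, (cD d).leibniz, Derivation.leibniz_pow, map_sub, cD_X, cD_C] at hg
  simp only [smul_eq_mul, nsmul_eq_mul, Nat.add_sub_cancel] at hg
  have h3 : (X - C e) * (cD d g₁ * ν - g₁ * cD d ν) = g₁ * (((m + 1 : ℕ) : K[X]) * C (d e)) * ν := by
    apply mul_left_cancel₀ (pow_ne_zero m (X_sub_C_ne_zero e))
    linear_combination hg
  have h4 := congrArg (eval e) h3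
  simp only [eval_mul, eval_sub, eval_X, eval_C, sub_self, zero_mul, eval_natCast] at h4
  have g1e : g₁.eval e ≠ 0 := fun z => h2 (dvd_iff_isRoot.2 z)
  exact (mul_eq_zero.1 ((mul_eq_zero.1 ((mul_eq_zero.1 h4.symm).resolve_right ne)).resolve_left
    g1e)).resolve_left (Nat.cast_ne_zero.2 m.succ_ne_zero)

theorem const_of {k : Type} [Field k] [CharZero k] [IsAlgClosed k] [Algebra k K] {x : K}
    (h : ∀ d : Derivation k K K, d x = 0) : x ∈ (algebraMap k K).range := by
  have hx : IsAlgebraic k x := by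
    by_contra hx
    obtain ⟨D, hD⟩ := Pool.Agent.MP_249f74_an.H88.exists_derivation (k := k) hx
    exact one_ne_zero (hD.symm.trans (h D))
  exact minpoly.mem_range_of_degree_eq_one k x
    (IsAlgClosed.degree_eq_one_of_irreducible k (minpoly.irreducible hx.isIntegral))

theorem daS : S_DA := by
  intro k K ι _ _ _ _ _ _ f N P i₁ i₂ i₃ hf h ha n12 n13 n23 m1 m2 m3
  haveI : CharZero K := charZero_of_injective_algebraMap (algebraMap k K).injective
  have an : ∀ {i j}, i ≠ j → (P i).a ≠ (P j).a := fun hij e => hij (ha e)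
  refine ⟨fun i j hij => const_of fun d =>
    d_ratio (d.restrictScalars ℤ) hf (h i) (h j) (an hij), ?_⟩
  have f0 : f ≠ 0 := by
    rintro rfl
    simp at hf
  by_cases hall : ∀ (d : Derivation k K K) (i j : ι), i ≠ j → d (gam (P i) (P j)) = 0
  · left
    have key : ∀ d : Derivation k K K, ∀ i, IsR (d.restrictScalars ℤ) f N (P i) 0 := by
      intro d
      choose R hR using fun i => hasR (d.restrictScalars ℤ) hf.le (h i)
      have hc : ∀ i j, R i * (P j).Q = R j * (P i).Q := fun i j => by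
        by_cases hij : i = j
        · rw [hij]
        obtain ⟨c, hc⟩ := d1 hf (h i) (h j) (hR i) (hR j)
        have e := d2 (h i) (h j) (hR i) (hR j) (an hij) hc
        have e0 : (d.restrictScalars ℤ) (gam (P i) (P j)) = 0 := hall d i j hij
        rw [e0, zero_mul] at e
        have c0 : c = 0 := (mul_eq_zero.1 ((mul_eq_zero.1 e.symm).resolve_right
          (gam_ne_zero (h i) (h j) (an hij)))).resolve_left
          (mul_ne_zero two_ne_zero (Nat.cast_ne_zero.2 (h i).pos.ne'))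
        rw [c0, C_0, zero_mul, sub_eq_zero] at hc
        exact hc
      let σ : Fin 3 → ι := ![i₁, i₂, i₃]
      have hσ : Function.Injective σ := by
        intro a b hab
        fin_cases a <;> fin_cases b <;> simp_all [σ]
      have dk : ∀ x ∈ (algebraMap k K).range, (d.restrictScalars ℤ) x = 0 := by
        rintro _ ⟨c, rfl⟩
        exact d.map_algebraMap c
      have R0 : R i₁ = 0 := d3 (d.restrictScalars ℤ) (fun a => P (σ a)) (fun a => R (σ a))
        (fun a => h _) (fun a => hR _) (ha.comp hσ)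
        (fun a => by
          fin_cases a
          exacts [dk _ m1, dk _ m2, dk _ m3]) fun a => hc _ _
      intro i
      have Q0 : (P i₁).Q ≠ 0 := fun e => (h i₁).b_ne (by rw [← (h i₁).Qa, e, eval_zero])
      have e := hc i i₁
      rw [R0, zero_mul] at e
      rw [← (mul_eq_zero.1 e).resolve_right Q0]
      exact hR i
    refine ⟨fun e he => const_of fun d => root_const f0 (h i₁) (key d i₁) he,
      fun i => const_of fun d => ?_⟩
    have := (key d i).val
    rw [eval_zero] at this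
    exact neg_eq_zero.1 ((mul_eq_zero.1 this.symm).resolve_right (h i).b_ne)
  · right
    push Not at hall
    obtain ⟨d, i, j, hij, hd⟩ := hall
    refine ⟨⟨i, j, hij, fun m => ?_⟩, i, j, hij, fun hx => hd ?_⟩
    · choose R hR using fun i => hasR (d.restrictScalars ℤ) hf.le (h i)
      obtain ⟨c, hc⟩ := d1 hf (h i) (h j) (hR i) (hR j)
      obtain ⟨c₁, hc₁⟩ := d1 hf (h j) (h m) (hR j) (hR m)
      obtain ⟨c₂, hc₂⟩ := d1 hf (h m) (h i) (hR m) (hR i)
      have c0 : c ≠ 0 := by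
        rintro rfl
        have e := d2 (h i) (h j) (hR i) (hR j) (an hij) hc
        rw [mul_zero, zero_mul] at e
        exact hd ((mul_eq_zero.1 e).resolve_right (sub_ne_zero.2 (an hij).symm))
      refine ⟨-c₁ * c⁻¹, -c₂ * c⁻¹, ?_⟩
      have e : C c * C c⁻¹ = (1 : K[X]) := by rw [← C_mul, mul_inv_cancel₀ c0, C_1]
      apply mul_left_cancel₀ f0
      simp only [C_mul, C_neg]
      linear_combination (-C c⁻¹) * ((P m).Q * hc + (P i).Q * hc₁ + (P j).Q * hc₂) -
        f * (P m).Q * e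
    · obtain ⟨c, hc⟩ := minpoly.mem_range_of_degree_eq_one k _
        (IsAlgClosed.degree_eq_one_of_irreducible k (minpoly.irreducible hx.isIntegral))
      rw [← hc]
      exact d.map_algebraMap c

end

end Pool.Agent.MP_8d06cc_nt.DA
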