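import Mathlib

/-! Pell data on the curve `y ^ 2 = f`, and the statement of block DA. -/

namespace Pool.Agent.MP_8d06cc_nt.DA

open Polynomial

noncomputable section

/-- numerator of the logarithmic derivative of `(A + B y) / (A - B y)` along `D` -/
def WW {R : Type} [CommRing R] (D : R[X] → R[X]) (f A B : R[X]) : R[X] :=
  2 * f * (A * D B - D A * B) + D f * A * B

/-- the raw data: point `(a, b)`, function `A + B y`, norm constant `c`, cubic `Q` -/
structure PD (R : Type) [CommRing R] where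
  a : R
  b : R
  c : R
  A : R[X]
  B : R[X]
  Q : R[X]

/-- transport along a ring map -/
def PD.map {R S : Type} [CommRing R] [CommRing S] (P : PD R) (h : R →+* S) : PD S :=
  ⟨h P.a, h P.b, h P.c, P.A.map h, P.B.map h, P.Q.map h⟩

/-- a Pell datum of order `N` -/
structure PD.OK {R : Type} [CommRing R] (P : PD R) (f : R[X]) (N : ℕ) : Prop where
  pos : 0 < N
  dA : P.A.natDegree ≤ N
  dB : P.B.natDegree + 4 ≤ N
  eqn : P.A ^ 2 - f * P.B ^ 2 = C P.c * (X - C P.a) ^ (2 * N)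
  hc : P.c ≠ 0
  hA : P.A.eval P.a ≠ 0
  hf : f.eval P.a ≠ 0
  hb : P.A.eval P.a + P.B.eval P.a * P.b = 0
  hQ : WW derivative f P.A P.B = C (2 * N * P.c) * (X - C P.a) ^ (2 * N - 1) * P.Q

/-- the value of `(A + B y) / (A - B y)` of the first datum at the point of the second -/
def gam {k : Type} [Field k] (P P' : PD k) : k :=
  (P.A.eval P'.a + P.B.eval P'.a * P'.b) / (P.A.eval P'.a - P.B.eval P'.a * P'.b)

/-- the cubics span a space of dimension at most two, with an explicit pair of generators -/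
def Rk2 {k ι : Type} [Field k] (P : ι → PD k) : Prop :=
  ∃ i j, i ≠ j ∧ ∀ m, ∃ u v : k, (P m).Q = C u * (P i).Q + C v * (P j).Q

/-- existence of `b`, `Q` and their first properties -/
structure S_PELL : Prop where
  ex : ∀ (k : Type) [Field k] [CharZero k] (f A B : k[X]) (N : ℕ) (a c : k), 0 < N →
    A.natDegree ≤ N → B.natDegree + 4 ≤ N → A ^ 2 - f * B ^ 2 = C c * (X - C a) ^ (2 * N) →
    c ≠ 0 → A.eval a ≠ 0 → f.eval a ≠ 0 → ∃ b Q, (PD.mk a b c A B Q).OK f N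
  basic : ∀ (k : Type) [Field k] [CharZero k] (f : k[X]) (N : ℕ) (P : PD k), f.natDegree ≤ 8 →
    P.OK f N → P.B.eval P.a ≠ 0 ∧ P.b ≠ 0 ∧ P.b ^ 2 = f.eval P.a ∧ P.Q.eval P.a = P.b ∧
      P.Q.natDegree ≤ 3
  gam_ne : ∀ (k : Type) [Field k] [CharZero k] (f : k[X]) (N : ℕ) (P P' : PD k), P.OK f N →
    P'.OK f N → P.a ≠ P'.a → P.A.eval P'.a + P.B.eval P'.a * P'.b ≠ 0 ∧
      P.A.eval P'.a - P.B.eval P'.a * P'.b ≠ 0

/-- the outcome of block DA -/
def S_DA : Prop := ∀ (k K ι : Type) [Field k] [CharZero k] [IsAlgClosed k] [Field K]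
  [IsAlgClosed K] [Algebra k K] (f : K[X]) (N : ℕ) (P : ι → PD K) (i₁ i₂ i₃ : ι),
  f.natDegree = 8 → (∀ i, (P i).OK f N) → (Function.Injective fun i => (P i).a) →
  i₁ ≠ i₂ → i₁ ≠ i₃ → i₂ ≠ i₃ → (P i₁).a ∈ (algebraMap k K).range →
  (P i₂).a ∈ (algebraMap k K).range → (P i₃).a ∈ (algebraMap k K).range →
  (∀ i j, i ≠ j → gam (P i) (P j) / gam (P j) (P i) ∈ (algebraMap k K).range) ∧
  (((∀ e, f.IsRoot e → e ∈ (algebraMap k K).range) ∧ ∀ i, (P i).a ∈ (algebraMap k K).range) ∨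
    (Rk2 P ∧ ∃ i j, i ≠ j ∧ Transcendental k (gam (P i) (P j))))

end

end Pool.Agent.MP_8d06cc_nt.DA
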