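import Pool.Agent.MP_8d06cc_nt.DA.Pell

/-! Variation of Pell data along a derivation of the ground field. -/

namespace Pool.Agent.MP_8d06cc_nt.DA

open Polynomial

noncomputable section

variable {K : Type} [Field K]

/-- coefficientwise derivation -/
def cD (d : Derivation ℤ K K) : Derivation ℤ K[X] K[X] := @Differential.mapCoeffs K _ ⟨d⟩

theorem coeff_cD (d : Derivation ℤ K K) (g : K[X]) (i : ℕ) : (cD d g).coeff i = d (g.coeff i) :=
  rfl

theorem cD_X (d : Derivation ℤ K K) : cD d X = 0 := @Differential.mapCoeffs_X K _ ⟨d⟩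

theorem cD_C (d : Derivation ℤ K K) (c : K) : cD d (C c) = C (d c) :=
  @Differential.mapCoeffs_C K _ ⟨d⟩ c

theorem deg_cD (d : Derivation ℤ K K) (g : K[X]) : (cD d g).natDegree ≤ g.natDegree := by
  rw [natDegree_le_iff_coeff_eq_zero]
  intro n hn
  rw [coeff_cD, coeff_eq_zero_of_natDegree_lt hn, map_zero]

theorem der_aeval {F : Type} [CommRing F] [Algebra K F] (d : Derivation ℤ K K)
    (δ : Derivation ℤ F F) (hδ : ∀ c, δ (algebraMap K F c) = algebraMap K F (d c)) (x : F)
    (g : K[X]) : δ (aeval x g) = aeval x (cD d g) + aeval x (derivative g) * δ x := by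
  induction g using Polynomial.induction_on with
  | C a => simp [cD_C, hδ]
  | add p q hp hq =>
    simp only [map_add, hp, hq]
    ring
  | monomial n a h =>
    rw [pow_succ, ← mul_assoc]
    generalize C a * X ^ n = g at h ⊢
    rw [map_mul, δ.leibniz, h, (cD d).leibniz, cD_X, derivative_mul, derivative_X]
    simp only [smul_eq_mul, map_add, map_mul, aeval_X, mul_zero, map_one, map_zero]
    ring

theorem der_eval (d : Derivation ℤ K K) (x : K) (g : K[X]) :
    d (eval x g) = eval x (cD d g) + eval x (derivative g) * d x := by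
  simpa only [coe_aeval_eq_eval] using der_aeval d d (fun _ => rfl) x g

/-- the quintic attached to a derivation -/
structure IsR (d : Derivation ℤ K K) (f : K[X]) (N : ℕ) (P : PD K) (R : K[X]) : Prop where
  eqn : WW (cD d) f P.A P.B = C (2 * N * P.c) * (X - C P.a) ^ (2 * N - 1) * R
  val : R.eval P.a = -d P.a * P.b
  deg : R.natDegree ≤ 5

theorem hasR [CharZero K] (d : Derivation ℤ K K) {f : K[X]} {N : ℕ} {P : PD K}
    (hf : f.natDegree ≤ 8) (h : P.OK f N) : ∃ R, IsR d f N P R := by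
  obtain ⟨R, h1, h2⟩ := exR (cD d) (c' := d P.c) (ε := -d P.a) h.pos h.eqn h.hc h.hA h.hb
    (cD_C d _) (by rw [map_sub, cD_X, cD_C, C_neg, zero_sub])
  refine ⟨R, h1, h2, ?_⟩
  have h3 := h.dA
  have h4 := h.dB
  obtain ⟨M, rfl⟩ : ∃ M, N = M + 4 := ⟨N - 4, by omega⟩
  exact deg_of h.pos h.c2 h1
    ((degW_le (deg_cD d) hf h3 (M := M) (by omega)).1.trans (by omega))

theorem d1 [CharZero K] {d : Derivation ℤ K K} {f : K[X]} {N : ℕ} {P P' : PD K} {R R' : K[X]}
    (hf : f.natDegree = 8) (h : P.OK f N) (h' : P'.OK f N) (r : IsR d f N P R)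
    (r' : IsR d f N P' R') : ∃ c, R * P'.Q - R' * P.Q = C c * f := by
  have h1 : f ∣ WW (cD d) f P.A P.B * WW derivative f P'.A P'.B -
      WW (cD d) f P'.A P'.B * WW derivative f P.A P.B := by
    refine ⟨2 * (P.A * cD d P.B - cD d P.A * P.B) * WW derivative f P'.A P'.B -
      2 * (P'.A * cD d P'.B - cD d P'.A * P'.B) * WW derivative f P.A P.B +
      cD d f * (P.A * P.B * (2 * (P'.A * derivative P'.B - derivative P'.A * P'.B)) -
        P'.A * P'.B * (2 * (P.A * derivative P.B - derivative P.A * P.B))), ?_⟩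
    unfold WW
    ring
  rw [r.eqn, r'.eqn, h.hQ, h'.hQ] at h1
  have cop : ∀ {P : PD K}, P.OK f N →
      IsCoprime f (C (2 * N * P.c) * (X - C P.a) ^ (2 * N - 1)) := fun {P} h => by
    refine IsCoprime.mul_right ?_ (IsCoprime.pow_right (IsCoprime.symm ?_))
    · refine ⟨0, C (2 * N * P.c)⁻¹, ?_⟩
      rw [← C_mul, inv_mul_cancel₀ h.c2, C_1, zero_mul, zero_add]
    · rw [(irreducible_X_sub_C _).coprime_iff_not_dvd, dvd_iff_isRoot]
      exact h.hf
  obtain ⟨t, ht⟩ : f ∣ R * P'.Q - R' * P.Q := by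
    refine (cop h').dvd_of_dvd_mul_left ((cop h).dvd_of_dvd_mul_left ?_)
    obtain ⟨t, ht⟩ := h1
    exact ⟨t, by rw [← ht]; ring⟩
  have hd : (R * P'.Q - R' * P.Q).natDegree ≤ 8 :=
    (natDegree_sub_le _ _).trans (max_le
      (natDegree_mul_le.trans (add_le_add r.deg (h'.degQ hf.le)))
      (natDegree_mul_le.trans (add_le_add r'.deg (h.degQ hf.le))))
  by_cases t0 : t = 0
  · exact ⟨0, by simp [ht, t0]⟩
  have f0 : f ≠ 0 := by
    rintro rfl
    simp at hf
  rw [ht, natDegree_mul f0 t0] at hd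
  exact ⟨t.coeff 0, by rw [ht, ← eq_C_of_natDegree_eq_zero (by omega), mul_comm]⟩

theorem d2 [CharZero K] {d : Derivation ℤ K K} {f : K[X]} {N : ℕ} {P P' : PD K} {R R' : K[X]}
    (h : P.OK f N) (h' : P'.OK f N) (r : IsR d f N P R) (r' : IsR d f N P' R') (ha : P.a ≠ P'.a)
    {c : K} (hc : R * P'.Q - R' * P.Q = C c * f) :
    d (gam P P') * (P'.a - P.a) = 2 * N * c * gam P P' := by
  obtain ⟨hp, hm⟩ := h.gam_ne h' ha
  have hn := h.norm_at h'
  have e1 := congrArg (eval P'.a) r.eqn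
  have e2 := congrArg (eval P'.a) h.hQ
  have e3 := congrArg (eval P'.a) hc
  simp only [WW, eval_add, eval_sub, eval_mul, eval_pow, eval_C, eval_X, eval_ofNat] at e1 e2 e3
  rw [h'.Qa, r'.val, ← h'.bsq] at e3
  have e4 : c * P'.b = R.eval P'.a + d P'.a * P.Q.eval P'.a := by
    apply mul_left_cancel₀ h'.b_ne
    linear_combination -e3
  have dα := der_eval d P'.a P.A
  have dβ := der_eval d P'.a P.B
  have dφ := der_eval d P'.a f
  rw [← h'.bsq, pow_two, Derivation.leibniz, smul_eq_mul] at dφ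
  rw [← h'.bsq] at e1 e2
  obtain ⟨n, hn'⟩ : ∃ n, 2 * N = n + 1 := ⟨2 * N - 1, by have := h.pos; omega⟩
  rw [hn', Nat.add_sub_cancel] at e1 e2
  rw [hn', pow_succ] at hn
  have key : 2 * ((d (P.B.eval P'.a) * P'.b + P.B.eval P'.a * d P'.b) * P.A.eval P'.a -
      d (P.A.eval P'.a) * P.B.eval P'.a * P'.b) = 2 * N * P.c * (P'.a - P.a) ^ n * c := by
    apply mul_left_cancel₀ h'.b_ne
    rw [dα, dβ]
    linear_combination e1 + d P'.a * e2 + P.A.eval P'.a * P.B.eval P'.a * dφ -
      2 * N * P.c * (P'.a - P.a) ^ n * e4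
  have hg : gam P P' * (P.A.eval P'.a - P.B.eval P'.a * P'.b) =
      P.A.eval P'.a + P.B.eval P'.a * P'.b := div_mul_cancel₀ _ hm
  have dg := congrArg d hg
  simp only [Derivation.leibniz, map_add, map_sub, smul_eq_mul] at dg
  apply mul_left_cancel₀ (pow_ne_zero 2 hm)
  generalize gam P P' = g at hg dg ⊢
  generalize d g = g' at dg ⊢
  generalize P.A.eval P'.a = α at *
  generalize P.B.eval P'.a = β at *
  linear_combination (α - β * P'.b) * (P'.a - P.a) * dg + (P'.a - P.a) * key -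
    2 * N * c * hn - ((P'.a - P.a) * (d α - (β * d P'.b + P'.b * d β)) +
      2 * N * c * (α - β * P'.b)) * hg

theorem gam_ne_zero {f : K[X]} {N : ℕ} {P P' : PD K} (h : P.OK f N) (h' : P'.OK f N)
    (ha : P.a ≠ P'.a) : gam P P' ≠ 0 := div_ne_zero (h.gam_ne h' ha).1 (h.gam_ne h' ha).2

theorem d_ratio [CharZero K] (d : Derivation ℤ K K) {f : K[X]} {N : ℕ} {P P' : PD K}
    (hf : f.natDegree = 8) (h : P.OK f N) (h' : P'.OK f N) (ha : P.a ≠ P'.a) :
    d (gam P P' / gam P' P) = 0 := by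
  obtain ⟨R, r⟩ := hasR d hf.le h
  obtain ⟨R', r'⟩ := hasR d hf.le h'
  obtain ⟨c, hc⟩ := d1 hf h h' r r'
  have e1 := d2 h h' r r' ha hc
  have e2 := d2 h' h r' r ha.symm (c := -c) (by rw [C_neg]; linear_combination -hc)
  have g0 := gam_ne_zero h' h ha.symm
  have hg : gam P P' / gam P' P * gam P' P = gam P P' := div_mul_cancel₀ _ g0
  have dg := congrArg d hg
  rw [Derivation.leibniz, smul_eq_mul, smul_eq_mul] at dg
  apply mul_left_cancel₀ (mul_ne_zero g0 (sub_ne_zero.2 ha.symm))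
  generalize gam P P' / gam P' P = u at hg dg ⊢
  linear_combination (P'.a - P.a) * dg + e1 + u * e2 - 2 * N * c * hg

theorem kill {F : Type} [Field F] [Algebra K F] {d : Derivation ℤ K K} (δ : Derivation ℤ F F)
    (hδ : ∀ c, δ (algebraMap K F c) = algebraMap K F (d c)) {f : K[X]} {N : ℕ} {P : PD K}
    {R q r : K[X]} (h : P.OK f N) (hr : IsR d f N P R) (hqr : R * q = r * P.Q) {x T : F}
    (hq : aeval x q ≠ 0) (hx : aeval x q * δ x = -aeval x r) (ha : x - algebraMap K F P.a ≠ 0)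
    (hT : aeval x P.A ^ 2 = T * (algebraMap K F P.c * (x - algebraMap K F P.a) ^ (2 * N))) :
    δ T = 0 := by
  have e0 := congrArg (aeval x) h.eqn
  have e1 := congrArg (aeval x) hr.eqn
  have e2 := congrArg (aeval x) h.hQ
  have e3 := congrArg (aeval x) hqr
  simp only [WW, map_add, map_sub, map_mul, map_pow, aeval_C, aeval_X, map_ofNat] at e0 e1 e2 e3
  have hν : algebraMap K F P.c * (x - algebraMap K F P.a) ^ (2 * N) ≠ 0 :=
    mul_ne_zero ((_root_.map_ne_zero _).2 h.hc) (pow_ne_zero _ ha)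
  rw [← e0] at hT hν
  have dα := der_aeval d δ hδ x P.A
  have dβ := der_aeval d δ hδ x P.B
  have dφ := der_aeval d δ hδ x f
  have W0 : 2 * aeval x f * (aeval x P.A * δ (aeval x P.B) - δ (aeval x P.A) * aeval x P.B) +
      δ (aeval x f) * aeval x P.A * aeval x P.B = 0 := by
    apply mul_left_cancel₀ hq
    rw [dα, dβ, dφ]
    linear_combination aeval x q * e1 + aeval x q * δ x * e2 +
      2 * algebraMap K F N * algebraMap K F P.c * (x - algebraMap K F P.a) ^ (2 * N - 1) *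
        (e3 + aeval x P.Q * hx)
  have dT := congrArg δ hT
  simp only [pow_two, Derivation.leibniz, map_sub, smul_eq_mul] at dT
  apply mul_left_cancel₀ (pow_ne_zero 2 hν)
  generalize aeval x P.A = α at *
  generalize aeval x P.B = β at *
  generalize aeval x f = φ at *
  linear_combination (-(α ^ 2 - φ * β ^ 2)) * dT + α * β * W0 +
    (2 * α * δ α - (φ * (2 * β * δ β) + β ^ 2 * δ φ)) * hT

end

end Pool.Agent.MP_8d06cc_nt.DA
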